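import Mathlib
import Pool.Agent.Lib.MP_9de1de_an.Q2.Param
import Pool.Agent.Lib.MP_9de1de_an.Q2.Volterra
import Pool.Agent.Lib.MP_9de1de_an.Q2.Polar
import Pool.Agent.Lib.MP_9de1de_an.Q2.Abel
import Pool.Agent.Lib.MP_9de1de_an.Q2.Step
import Pool.Agent.Lib.MP_9de1de_an.Q2.Lim
import Pool.Agent.Lib.MP_9de1de_an.Q2.Circle
import Pool.Agent.Lib.MP_9de1de_an.Q2.Main
import Pool.Agent.Lib.MP_9de1de_an.Q2.Final

/-!
Q2 for `0 < α < 1`: a function continuous on the open unit disc whose integral over the circle of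
centre `z` and radius `α (1 - |z|)` is zero for every `z` in the disc need not be analytic. Radial
data with compact support in `0 < |z| < α` can even be prescribed.
-/

set_option autoImplicit false

open scoped ContDiff

namespace Pool.Agent.Results.MP_9de1de_an.OpenDisc

/-- Condition (∗) for the number `α` and the function `f`: for every `z` in the open unit disc the
integral of `f` over the positively oriented circle of centre `z` and radius `α (1 - |z|)` is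
zero. -/
def CircleCondition (α : ℝ) (f : ℂ → ℂ) : Prop :=
  ∀ z : ℂ, ‖z‖ < 1 → (∮ ζ in C(z, α * (1 - ‖z‖)), f ζ) = 0

/-- `g` is infinitely differentiable on the real line and zero outside a compact subset of the
interval `(0, α)`. -/
def Profile (α : ℝ) (g : ℝ → ℝ) : Prop :=
  ContDiff ℝ ∞ g ∧ ∃ p q : ℝ, 0 < p ∧ q < α ∧ ∀ t, t ≤ p ∨ q ≤ t → g t = 0

/-- there are profiles -/
theorem exists_profile {α : ℝ} (hα : 0 < α) : ∃ g : ℝ → ℝ, Profile α g ∧ ∃ t, g t ≠ 0 := by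
  let b : ContDiffBump (α / 2) := ⟨α / 8, α / 4, by positivity, by linarith⟩
  refine ⟨b, ⟨b.contDiff, α / 4, 3 * α / 4, by positivity, by linarith, ?_⟩, α / 2, ?_⟩
  · intro t ht
    apply b.zero_of_le_dist
    rw [Real.dist_eq]
    show α / 4 ≤ |t - α / 2|
    rcases ht with h | h
    · have := neg_abs_le (t - α / 2)
      linarith
    · have := le_abs_self (t - α / 2)
      linarith
  · rw [b.one_of_mem_closedBall (Metric.mem_closedBall_self (by positivity))]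
    exact one_ne_zero

/-- main theorem -/
theorem result (α : ℝ) (hα0 : 0 < α) (hα1 : α < 1) :
    (∃ f : ℂ → ℂ, ContinuousOn f (Metric.ball (0 : ℂ) 1) ∧ CircleCondition α f ∧
      ¬ AnalyticOn ℂ f (Metric.ball (0 : ℂ) 1)) ∧
    ∀ g : ℝ → ℝ, Profile α g → ∃ f : ℂ → ℂ, ContDiffOn ℝ ∞ f (Metric.ball (0 : ℂ) 1) ∧
      CircleCondition α f ∧ (∀ z : ℂ, ‖z‖ ≤ α → f z = ((g ‖z‖ : ℝ) : ℂ)) ∧
      ((∃ t, g t ≠ 0) → ¬ AnalyticOn ℂ f (Metric.ball (0 : ℂ) 1)) := by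
  have hM := Pool.Agent.Lib.MP_9de1de_an.Q2.main
    (Pool.Agent.Lib.MP_9de1de_an.Q2.limit
      (Pool.Agent.Lib.MP_9de1de_an.Q2.step Pool.Agent.Lib.MP_9de1de_an.Q2.param
        (Pool.Agent.Lib.MP_9de1de_an.Q2.abel Pool.Agent.Lib.MP_9de1de_an.Q2.param
          Pool.Agent.Lib.MP_9de1de_an.Q2.volterra Pool.Agent.Lib.MP_9de1de_an.Q2.jj
          Pool.Agent.Lib.MP_9de1de_an.Q2.jk)))
    Pool.Agent.Lib.MP_9de1de_an.Q2.circle
  have key : ∀ g : ℝ → ℝ, Profile α g → ∃ f : ℂ → ℂ,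
      ContDiffOn ℝ ∞ f (Metric.ball (0 : ℂ) 1) ∧
      CircleCondition α f ∧ (∀ z : ℂ, ‖z‖ ≤ α → f z = ((g ‖z‖ : ℝ) : ℂ)) ∧
      ((∃ t, g t ≠ 0) → ¬ AnalyticOn ℂ f (Metric.ball (0 : ℂ) 1)) := fun g hg =>
    Pool.Agent.Lib.MP_9de1de_an.Q2.final hM hα0 hα1 hg.1 hg.2
  obtain ⟨g, hg, ht⟩ := exists_profile hα0
  obtain ⟨f, hf1, hf2, -, hf4⟩ := key g hg
  exact ⟨⟨f, hf1.continuousOn, hf2, hf4 ht⟩, key⟩

end Pool.Agent.Results.MP_9de1de_an.OpenDisc
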